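import Pool.Agent.Helper1.RG.Asm

/-- Every colouring `c` of the plane `ℂ` by two colours (no measurability or other regularity) has a
monochromatic `m × n` rectangle (vertices `z`, `z + m u`, `z + n i u`, `z + m u + n i u`,
`|u| = 1`) with `m, n ∈ {1, 2}`. -/
theorem Pool.Agent.Results.MP_c9c10f_co.AllColouringsTwo.result (c : ℂ → Bool) :
    ∃ m n : ℕ, (m = 1 ∨ m = 2) ∧ (n = 1 ∨ n = 2) ∧ ∃ z u : ℂ, ‖u‖ = 1 ∧
      c (z + m * u) = c z ∧ c (z + n * (Complex.I * u)) = c z ∧
      c (z + m * u + n * (Complex.I * u)) = c z :=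
  Pool.Agent.Helper1.RG.final c
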