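import Pool.Agent.Helper8.P1.Final

/-- Let `d ≥ 2` be squarefree with `d % 24 ≠ 23`. There is a colouring of the whole plane `ℂ` by two
colours such that no `1 × 1` and no `1 × 2` rectangle one of whose unit side vectors `u` has both
coordinates in `ℚ(√d)` is monochromatic. -/
theorem Pool.Agent.Results.MP_c9c10f_co.QuadraticDirections.result (d : ℕ) (hd : 2 ≤ d)
    (hsq : Squarefree d) (h23 : d % 24 ≠ 23) :
    ∃ c : ℂ → Bool, ∀ m : ℕ, (m = 1 ∨ m = 2) → ∀ z u : ℂ, ‖u‖ = 1 →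
      (∃ a b a' b' : ℚ, u.re = a + b * √(d : ℝ) ∧ u.im = a' + b' * √(d : ℝ)) →
      ¬ (c (z + m * u) = c z ∧ c (z + Complex.I * u) = c z ∧
        c (z + m * u + Complex.I * u) = c z) := by
  obtain ⟨c, hc⟩ := Pool.Agent.Helper8.P1.all_cases d hd hsq h23
  refine ⟨c, ?_⟩
  rintro m hm z u hu ⟨a, b, a', b', h1, h2⟩
  have hv : Pool.Agent.Helper8.P1.emb d (a, b, a', b') = u := Complex.ext h1.symm h2.symm
  have h := hc m hm (a, b, a', b') (by rw [hv]; exact hu) z
  rw [hv] at h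
  exact h
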