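import Pool.Agent.Helper8.P1.Mod3

/-- Let `F` be a field of real numbers with a valuation ring `A` that has a ring homomorphism to
the field of three elements. There is a colouring of the whole plane `ℂ` by two colours such that no
`m × n` rectangle with `m`, `n` not divisible by `3` and with side directions in `F²` is
monochromatic. -/
theorem Pool.Agent.Results.MP_c9c10f_co.ThreeAdicDirections.result (F : Subfield ℝ)
    (A : ValuationSubring F) (φ : A →+* ZMod 3) :
    ∃ c : ℂ → Bool, ∀ m n : ℕ, ¬ 3 ∣ m → ¬ 3 ∣ n → ∀ z u : ℂ, ‖u‖ = 1 →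
      u.re ∈ F → u.im ∈ F →
      ¬ (c (z + m * u) = c z ∧ c (z + n * (Complex.I * u)) = c z ∧
        c (z + m * u + n * (Complex.I * u)) = c z) :=
  Pool.Agent.Helper8.P1.barrier F A φ
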